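import Mathlib
import Pool.Agent.KS6_44.VL.LowerAsymp
import Pool.Agent.KS6_44.VL.UpperAsymp

open Finset Filter

namespace Pool.Agent.Results.MP_7e7d68_co.SqrtEConstants

/-! ### Definitions used in the statement -/

/-- `G` is a bipartite graph with sides `A = Fin (2 * n)` and `B = Fin m` (every edge joins a vertex
of `A` to a vertex of `B`) with the pairing property: however `A` is split into `n` pairs
`{e (s, 0), e (s, 1)}`, `s : Fin n`, there are pairwise distinct `k s` in `B` such that `k s` is a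
common neighbour of the two members of the pair number `s`. -/
def PairingProperty (n m : ℕ) (G : SimpleGraph (Fin (2 * n) ⊕ Fin m)) : Prop :=
  G ≤ completeBipartiteGraph (Fin (2 * n)) (Fin m) ∧
  ∀ e : Fin n × Fin 2 ≃ Fin (2 * n), ∃ k : Fin n → Fin m, Function.Injective k ∧
    ∀ s : Fin n, G.Adj (Sum.inl (e (s, 0))) (Sum.inr (k s)) ∧
      G.Adj (Sum.inl (e (s, 1))) (Sum.inr (k s))

/-- The maximum degree among the vertices of the side `A`. -/
noncomputable def maxDegA {n m : ℕ} (G : SimpleGraph (Fin (2 * n) ⊕ Fin m)) : ℕ :=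
  Finset.univ.sup fun a : Fin (2 * n) => (G.neighborSet (Sum.inl a)).ncard

/-- `λ(n, m)`: the least maximum degree on the side `A` of a graph with the pairing property. -/
noncomputable def lamTwo (n m : ℕ) : ℕ :=
  sInf {d : ℕ | ∃ G : SimpleGraph (Fin (2 * n) ⊕ Fin m), PairingProperty n m G ∧ maxDegA G = d}

/-- `λ(n)`: the least value of `λ(n, m)` over all integers `m ≥ n`. -/
noncomputable def lam (n : ℕ) : ℕ := sInf {d : ℕ | ∃ m : ℕ, n ≤ m ∧ lamTwo n m = d}

/-! ### Proof -/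

/-- the complete bipartite graph has the pairing property when `n ≤ m` -/
lemma complete_pairing {n m : ℕ} (h : n ≤ m) :
    PairingProperty n m (completeBipartiteGraph (Fin (2 * n)) (Fin m)) := by
  refine ⟨le_rfl, fun e => ⟨Fin.castLE h, Fin.castLE_injective h, fun s => ?_⟩⟩
  simp [completeBipartiteGraph]

lemma lamTwo_set_nonempty {n m : ℕ} (h : n ≤ m) :
    {d : ℕ | ∃ G : SimpleGraph (Fin (2 * n) ⊕ Fin m), PairingProperty n m G ∧
      maxDegA G = d}.Nonempty :=
  ⟨_, _, complete_pairing h, rfl⟩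

lemma lam_set_nonempty (n : ℕ) : {d : ℕ | ∃ m : ℕ, n ≤ m ∧ lamTwo n m = d}.Nonempty :=
  ⟨_, n, le_rfl, rfl⟩

lemma lam_le_lamTwo {n m : ℕ} (hm : n ≤ m) : lam n ≤ lamTwo n m :=
  Nat.sInf_le (show lamTwo n m ∈ {d : ℕ | ∃ m : ℕ, n ≤ m ∧ lamTwo n m = d} from ⟨m, hm, rfl⟩)

/-- `λ(n)` is attained by a graph with the pairing property -/
lemma exists_optimal (n : ℕ) : ∃ m : ℕ, n ≤ m ∧ ∃ G : SimpleGraph (Fin (2 * n) ⊕ Fin m),
    PairingProperty n m G ∧ maxDegA G = lam n := by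
  obtain ⟨m, hm, h⟩ := Nat.sInf_mem (lam_set_nonempty n)
  obtain ⟨G, hG, h'⟩ := Nat.sInf_mem (lamTwo_set_nonempty (n := n) (m := m) hm)
  refine ⟨m, hm, G, hG, ?_⟩
  rw [h']
  exact h

/-- **The order of growth of `λ(n)`, with constants within a factor `√2`.** For every `ε > 0` and
all large `n`: `(√(e/2) - ε) √(n log n) ≤ λ(n) ≤ (√e + ε) √(n log n)`, and the upper bound even
holds for `λ(n, m)` with any `m ≥ (e + ε) n`. -/
theorem result (ε : ℝ) (hε : 0 < ε) : ∀ᶠ n : ℕ in atTop,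
    ((√(Real.exp 1 / 2) - ε) * √(n * Real.log n) ≤ (lam n : ℝ) ∧
      (lam n : ℝ) ≤ (√(Real.exp 1) + ε) * √(n * Real.log n)) ∧
    ∀ m : ℕ, (Real.exp 1 + ε) * n ≤ m →
      (√(Real.exp 1 / 2) - ε) * √(n * Real.log n) ≤ (lamTwo n m : ℝ) ∧
      (lamTwo n m : ℝ) ≤ (√(Real.exp 1) + ε) * √(n * Real.log n) := by
  classical
  have he := Real.exp_pos 1
  have hlow : ∀ᶠ n : ℕ in atTop, (√(Real.exp 1 / 2) - ε) * √(n * Real.log n) ≤ (lam n : ℝ) := by
    rcases le_or_gt (√(Real.exp 1 / 2) - ε) 0 with hneg | hpos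
    · exact Filter.Eventually.of_forall fun n =>
        (mul_nonpos_of_nonpos_of_nonneg hneg (Real.sqrt_nonneg _)).trans (Nat.cast_nonneg _)
    · have hc : (√(Real.exp 1 / 2) - ε) ^ 2 < Real.exp 1 / 2 := by
        have h1 : (√(Real.exp 1 / 2)) ^ 2 = Real.exp 1 / 2 := Real.sq_sqrt (by positivity)
        have h2 : 0 < √(Real.exp 1 / 2) := Real.sqrt_pos.2 (by positivity)
        nlinarith
      filter_upwards [Pool.Agent.KS6_44.VL.lower_asymp hpos hc] with n hn
      obtain ⟨m, -, G, hG, hdeg⟩ := exists_optimal n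
      let N : Fin (2 * n) → Finset (Fin m) := fun a =>
        univ.filter fun b => G.Adj (Sum.inl a) (Sum.inr b)
      obtain ⟨a, ha⟩ := hn m N (by
        intro e
        obtain ⟨k, hk1, hk2⟩ := hG.2 e
        exact ⟨k, hk1, fun s => by simpa [N] using hk2 s⟩)
      have h1 : (N a).card ≤ maxDegA G := by
        refine le_trans ?_ (Finset.le_sup (f := fun a : Fin (2 * n) =>
          (G.neighborSet (Sum.inl a)).ncard) (mem_univ a))
        rw [← Set.ncard_coe_finset (N a), ← Set.ncard_image_of_injective _ Sum.inr_injective]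
        apply Set.ncard_le_ncard _ (Set.toFinite _)
        rintro _ ⟨b, hb, rfl⟩
        simpa [N] using hb
      have h2 : ((N a).card : ℝ) ≤ (lam n : ℝ) := by
        rw [← hdeg]; exact_mod_cast h1
      linarith
  have hup : ∀ᶠ n : ℕ in atTop, ∀ m : ℕ, (Real.exp 1 + ε) * n ≤ m →
      (lamTwo n m : ℝ) ≤ (√(Real.exp 1) + ε) * √(n * Real.log n) := by
    filter_upwards [Pool.Agent.KS6_44.VL.upper_asymp hε] with n hn m hm
    obtain ⟨L, q, hqp, hnm, hLq, hD, N, hN1, hN2⟩ := hn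
    have hle : L * q ^ 2 ≤ m := by
      exact_mod_cast hLq.trans hm
    have hcard : Fintype.card (Fin L × (ZMod q × ZMod q)) = L * q ^ 2 := by
      simp [ZMod.card, sq]
    let E0 : Fin L × (ZMod q × ZMod q) ≃ Fin (L * q ^ 2) := Fintype.equivFinOfCardEq hcard
    let E : Fin L × (ZMod q × ZMod q) → Fin m := fun b => Fin.castLE hle (E0 b)
    have hE : Function.Injective E := (Fin.castLE_injective hle).comp E0.injective
    let G : SimpleGraph (Fin (2 * n) ⊕ Fin m) :=
      { Adj := fun x y => (∃ a b, x = Sum.inl a ∧ y = Sum.inr (E b) ∧ b ∈ N a) ∨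
          (∃ a b, y = Sum.inl a ∧ x = Sum.inr (E b) ∧ b ∈ N a)
        symm := ⟨fun x y h => h.symm⟩
        loopless := ⟨fun x h => by
          rcases h with ⟨a, b, h1, h2, -⟩ | ⟨a, b, h1, h2, -⟩ <;> (rw [h1] at h2; cases h2)⟩ }
    have hGadj : ∀ a b, b ∈ N a → G.Adj (Sum.inl a) (Sum.inr (E b)) := by
      intro a b h
      exact Or.inl ⟨a, b, rfl, rfl, h⟩
    have hG : PairingProperty n m G := by
      constructor
      · intro x y h
        rcases h with ⟨a, b, rfl, rfl, -⟩ | ⟨a, b, rfl, rfl, -⟩ <;> simp [completeBipartiteGraph]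
      · intro e
        obtain ⟨k, hk1, hk2⟩ := hN2 e
        refine ⟨fun s => E (k s), hE.comp hk1, fun s => ?_⟩
        exact ⟨hGadj _ _ (hk2 s).1, hGadj _ _ (hk2 s).2⟩
    have hmax : maxDegA G ≤ L * q := by
      apply Finset.sup_le
      intro a _
      have : G.neighborSet (Sum.inl a) ⊆ (fun b => (Sum.inr (E b) : Fin (2 * n) ⊕ Fin m)) ''
          (N a : Set (Fin L × (ZMod q × ZMod q))) := by
        intro y hy
        rcases hy with ⟨a', b', h1, h2, h3⟩ | ⟨a', b', h1, h2, h3⟩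
        · cases Sum.inl_injective h1
          exact ⟨b', h3, h2.symm⟩
        · cases h2
      calc (G.neighborSet (Sum.inl a)).ncard ≤ _ := Set.ncard_le_ncard this (Set.toFinite _)
        _ ≤ (N a : Set (Fin L × (ZMod q × ZMod q))).ncard := Set.ncard_image_le (Set.toFinite _)
        _ = L * q := by rw [Set.ncard_coe_finset, hN1]
    have h1 : (lamTwo n m : ℝ) ≤ ((L * q : ℕ) : ℝ) := by
      exact_mod_cast (Nat.sInf_le (show maxDegA G ∈ {d : ℕ | ∃ G : SimpleGraph
        (Fin (2 * n) ⊕ Fin m), PairingProperty n m G ∧ maxDegA G = d} from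
        ⟨G, hG, rfl⟩)).trans hmax
    exact h1.trans hD
  filter_upwards [hlow, hup] with n h1 h2
  have hnm : ∀ m : ℕ, (Real.exp 1 + ε) * n ≤ m → n ≤ m := by
    intro m hm
    have h3 : (1:ℝ) ≤ Real.exp 1 := by linarith [Real.add_one_le_exp (1:ℝ)]
    have h4 : (n:ℝ) ≤ m := by
      have h5 : (0:ℝ) ≤ n := Nat.cast_nonneg n
      nlinarith
    exact_mod_cast h4
  refine ⟨⟨h1, ?_⟩, fun m hm => ⟨?_, h2 m hm⟩⟩
  · have h3 : (Real.exp 1 + ε) * n ≤ (⌈(Real.exp 1 + ε) * n⌉₊ : ℝ) := Nat.le_ceil _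
    have h4 : (lam n : ℝ) ≤ lamTwo n ⌈(Real.exp 1 + ε) * n⌉₊ := by
      exact_mod_cast lam_le_lamTwo (hnm _ h3)
    exact h4.trans (h2 _ h3)
  · have h4 : (lam n : ℝ) ≤ lamTwo n m := by exact_mod_cast lam_le_lamTwo (hnm _ hm)
    exact h1.trans h4

end Pool.Agent.Results.MP_7e7d68_co.SqrtEConstants
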